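import Pool.Agent.Q293.DPG.Family

/-!
# MP_d3b86e : cliques can be forced from graphs of arbitrarily large girth

`ρ(k, g)` is finite for all `k, g ≥ 3`; in fact it is at most a tower of twos of height `k - 2`,
and the starting graph can be taken to be a forest.
-/

namespace Pool.Agent.Results.MP_d3b86e_co.CliquesForced

open SimpleGraph Pool.Agent.Q293.DPG

/-- `ρ(k, g)`: the least forcing time of `K_k` over all finite graphs of girth at least `g`
(`egirth` is Mathlib's girth with value `⊤` for forests). -/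
noncomputable def rho (k g : ℕ) : ℕ∞ :=
  sInf {x : ℕ∞ | ∃ (n : ℕ) (G : SimpleGraph (Fin n)), (g : ℕ∞) ≤ G.egirth ∧
    x = forcingTime (completeGraph (Fin k)) G}

/-- **MP_d3b86e.** `ρ(k, g)` is finite for all integers `k, g ≥ 3`, with `ρ(k, g) ≤ tw (k - 2)`. -/
theorem result : ∀ k g : ℕ, 3 ≤ k → 3 ≤ g → ∃ T : ℕ, rho k g = (T : ℕ∞) ∧ T ≤ tw (k - 2) := by
  intro k g hk _
  obtain ⟨j, rfl⟩ : ∃ j, k = j + 2 := ⟨k - 2, by omega⟩
  obtain ⟨n, G, hG, hF⟩ := forces_from_forest j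
  have h1 : rho (j + 2) g ≤ (e j : ℕ∞) := by
    refine le_trans (sInf_le ⟨n, G, ?_, rfl⟩) (sInf_le ⟨e j, rfl, hF⟩)
    rw [egirth_eq_top.mpr hG]
    exact le_top
  have h2 : e j ≤ tw j := e_le_tw j (by omega)
  have h3 : rho (j + 2) g ≠ ⊤ := fun h => by rw [h] at h1; simp at h1
  obtain ⟨T, hT⟩ := ENat.ne_top_iff_exists.mp h3
  refine ⟨T, hT.symm, ?_⟩
  rw [← hT] at h1
  have : T ≤ e j := by exact_mod_cast h1
  exact le_trans this h2

end Pool.Agent.Results.MP_d3b86e_co.CliquesForced
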